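import Pool.Agent.Lib.MP_2163b8_an.Main

open Pool.Agent.Lib.MP_2163b8_an

namespace Pool.Agent.Results.MP_2163b8_an.DimTwoFails

universe u v w

/-- Negative answer to Q2, without uniform boundedness, in every Banach space of dimension at least
two with a projectional skeleton (in particular in every Hilbert space of dimension at least two):
there is a projectional skeleton with the same induced subspace for which the recipe of Q2 fails to
give a projectional generator. -/
theorem result {𝕜 : Type w} {X : Type u} {Γ : Type v} [RCLike 𝕜] [NormedAddCommGroup X]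
    [NormedSpace 𝕜 X] [CompleteSpace X] [PartialOrder Γ] (P : Γ → X →L[𝕜] X)
    (hP : IsProjectionalSkeleton P) (x y : X) (hxy : LinearIndependent 𝕜 ![x, y]) :
    ∃ (Γ' : Type (max u v w)) (_ : PartialOrder Γ') (P' : Γ' → X →L[𝕜] X),
      IsProjectionalSkeleton P' ∧ inducedSubspace P' = inducedSubspace P ∧
      ∃ s : StrongDual 𝕜 X → Γ', (∃ Φ, IsRecipe P' s Φ) ∧
        ∀ Φ, IsRecipe P' s Φ → ¬ GeneratorCondition (inducedSubspace P') Φ :=
  rank_two hP hxy

end Pool.Agent.Results.MP_2163b8_an.DimTwoFails
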