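import Pool.Agent.Lib.MP_2163b8_an.Main

open Pool.Agent.Lib.MP_2163b8_an

namespace Pool.Agent.Results.MP_2163b8_an.NonreflexiveFails

universe u v w

/-- Negative answer to Q2 in every non-reflexive Banach space with a projectional skeleton:
there is a uniformly bounded projectional skeleton with the same induced subspace for which the
recipe of Q2 fails to give a projectional generator. -/
theorem result {𝕜 : Type w} {X : Type u} {Γ : Type v} [RCLike 𝕜] [NormedAddCommGroup X]
    [NormedSpace 𝕜 X] [CompleteSpace X] [PartialOrder Γ] (P : Γ → X →L[𝕜] X)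
    (hP : IsProjectionalSkeleton P)
    (hX : ¬ Function.Surjective (NormedSpace.inclusionInDoubleDual 𝕜 X)) :
    ∃ (Γ' : Type (max u v w)) (_ : PartialOrder Γ') (P' : Γ' → X →L[𝕜] X),
      IsProjectionalSkeleton P' ∧ inducedSubspace P' = inducedSubspace P ∧
      (∃ M : ℝ, ∀ s, ‖P' s‖ ≤ M) ∧
      ∃ s : StrongDual 𝕜 X → Γ', (∃ Φ, IsRecipe P' s Φ) ∧
        ∀ Φ, IsRecipe P' s Φ → ¬ GeneratorCondition (inducedSubspace P') Φ :=
  nonreflexive hP hX

end Pool.Agent.Results.MP_2163b8_an.NonreflexiveFails
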