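import Pool.Agent.Lib.MP_2163b8_an.Main

open Pool.Agent.Lib.MP_2163b8_an

namespace Pool.Agent.Results.MP_2163b8_an.ReflexiveWorks

/-- In a reflexive Banach space the recipe of Q2, applied to any uniformly bounded projectional
skeleton, always gives a projectional generator. -/
theorem result {𝕜 X Γ : Type*} [RCLike 𝕜] [NormedAddCommGroup X]
    [NormedSpace 𝕜 X] [CompleteSpace X] [PartialOrder Γ] (P : Γ → X →L[𝕜] X)
    (hP : IsProjectionalSkeleton P) (M : ℝ) (hM : ∀ s, ‖P s‖ ≤ M)
    (hX : Function.Surjective (NormedSpace.inclusionInDoubleDual 𝕜 X))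
    (s : StrongDual 𝕜 X → Γ) (Φ : StrongDual 𝕜 X → Set X) (hΦ : IsRecipe P s Φ) :
    IsProjectionalGenerator (inducedSubspace P) Φ :=
  reflexive hP hM hX hΦ

end Pool.Agent.Results.MP_2163b8_an.ReflexiveWorks
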